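import Pool.Agent.Helper56.GZ.Dich

/-! # Baire category facts about the canonical graph -/

set_option autoImplicit false

open MeasureTheory Filter Topology

namespace Pool.Agent.Helper56.GZ

theorem exists_dense_words : ∃ s : ℕ → List Bool, (∀ k, (s k).length = k) ∧ ∀ l : List Bool, ∃ k, l <+: s k := by
  let w : ℕ → List Bool := fun k => ((Encodable.decode (α := List Bool) (Nat.unpair k).1).getD [])
  refine ⟨fun k => if (w k).length ≤ k then w k ++ List.replicate (k - (w k).length) false
    else List.replicate k false, ?_, ?_⟩
  · intro k
    dsimp only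
    split
    · rw [List.length_append, List.length_replicate]; omega
    · rw [List.length_replicate]
  · intro l
    refine ⟨Nat.pair (Encodable.encode l) l.length, ?_⟩
    have e : w (Nat.pair (Encodable.encode l) l.length) = l := by
      show ((Encodable.decode (α := List Bool) (Nat.unpair (Nat.pair (Encodable.encode l) l.length)).1).getD []) = l
      rw [Nat.unpair_pair]
      simp
    dsimp only
    rw [e, if_pos (Nat.right_le_pair _ _)]
    exact List.prefix_append _ _

theorem cat_nil (z : ℕ → Bool) : cat [] z = z := by
  funext i
  unfold cat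
  simp

theorem cat_append (l m : List Bool) (z : ℕ → Bool) : cat (l ++ m) z = cat l (cat m z) := by
  funext i
  unfold cat
  by_cases h : i < l.length
  · rw [dif_pos (by rw [List.length_append]; omega), dif_pos h, List.getElem_append_left h]
  · rw [dif_neg h]
    by_cases h2 : i - l.length < m.length
    · rw [dif_pos (by rw [List.length_append]; omega), dif_pos h2, List.getElem_append_right (not_lt.1 h)]
    · rw [dif_neg (by rw [List.length_append]; omega), dif_neg h2, List.length_append]
      congr 1
      omega

theorem continuous_cat (l : List Bool) : Continuous (cat l) := by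
  refine continuous_pi fun i => ?_
  unfold cat
  by_cases h : i < l.length
  · simp only [dif_pos h]
    exact continuous_const
  · simp only [dif_neg h]
    exact continuous_apply _

theorem isOpenMap_cat (l : List Bool) : IsOpenMap (cat l) := by
  intro V hV
  have e : cat l '' V = (⋂ i : Fin l.length, {y : ℕ → Bool | y i = l[i]}) ∩
      {y | (fun i => y (i + l.length)) ∈ V} := by
    ext y
    simp only [Set.mem_image, Set.mem_inter_iff, Set.mem_iInter, Set.mem_ofPred_eq]
    constructor
    · rintro ⟨z, hz, rfl⟩
      refine ⟨fun i => ?_, ?_⟩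
      · show cat l z i = l[i]
        unfold cat
        rw [dif_pos i.2]
        rfl
      · have : (fun i => cat l z (i + l.length)) = z := by
          funext i
          unfold cat
          rw [dif_neg (by omega), Nat.add_sub_cancel]
        rw [this]
        exact hz
    · rintro ⟨h1, h2⟩
      refine ⟨_, h2, ?_⟩
      funext i
      unfold cat
      by_cases h : i < l.length
      · rw [dif_pos h]
        exact (h1 ⟨i, h⟩).symm
      · rw [dif_neg h]
        dsimp only
        congr 1
        omega
  rw [e]
  refine IsOpen.inter (isOpen_iInter_of_finite fun i => ?_) ?_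
  · show IsOpen ((fun y : ℕ → Bool => y i) ⁻¹' {l[i]})
    exact (isOpen_discrete _).preimage (continuous_apply _)
  · exact hV.preimage (continuous_pi fun i => continuous_apply _)

theorem tendsto_cat_pb (x : ℕ → Bool) (y : ℕ → ℕ → Bool) : Tendsto (fun n => cat (pb x n) (y n)) atTop (𝓝 x) := by
  rw [tendsto_pi_nhds]
  intro i
  refine tendsto_const_nhds.congr' ?_
  filter_upwards [eventually_gt_atTop i] with n hn
  unfold cat
  rw [dif_pos (by rw [length_pb]; exact hn), getElem_pb]

theorem no_col {s : ℕ → List Bool} (hd : ∀ l : List Bool, ∃ k, l <+: s k) {c : (ℕ → Bool) → Bool}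
    (hc : Measurable c) : ∃ k z, c (cat (s k ++ [false]) z) = c (cat (s k ++ [true]) z) := by
  have hD : MeasurableSet {z | c z = true} := hc (measurableSet_singleton true)
  obtain ⟨U, hU, hDU⟩ := hD.residualEq_isOpen
  have claim : ∃ (l : List Bool) (β : Bool), {z | c (cat l z) = β} ∈ residual (ℕ → Bool) := by
    by_cases hne : U.Nonempty
    · obtain ⟨x, hx⟩ := hne
      have h1 : ∃ n, ∀ z, cat (pb x n) z ∈ U := by
        by_contra hcon
        push Not at hcon
        choose y hy using hcon
        have h2 := (tendsto_cat_pb x y).eventually (hU.mem_nhds hx)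
        obtain ⟨n, hn⟩ := h2.exists
        exact hy n hn
      obtain ⟨n, hn⟩ := h1
      refine ⟨pb x n, true, ?_⟩
      have h3 := (tendsto_residual_of_isOpenMap (continuous_cat (pb x n)) (isOpenMap_cat (pb x n))).eventually hDU
      filter_upwards [h3] with z hz
      have h4 : (cat (pb x n) z ∈ {z | c z = true}) = (cat (pb x n) z ∈ U) := hz
      have h5 : cat (pb x n) z ∈ {z | c z = true} := by
        rw [h4]
        exact hn z
      exact h5
    · refine ⟨[], false, ?_⟩
      rw [Set.not_nonempty_iff_eq_empty] at hne
      filter_upwards [hDU] with z hz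
      have h4 : (z ∈ {z | c z = true}) = (z ∈ U) := hz
      show c (cat [] z) = false
      rw [cat_nil]
      by_contra h5
      have h6 : z ∈ {z | c z = true} := by
        show c z = true
        exact Bool.eq_true_of_not_eq_false h5
      rw [h4, hne] at h6
      exact h6
  obtain ⟨l, β, hl⟩ := claim
  obtain ⟨k, m, hm⟩ := hd l
  have h1 : ∀ ε : Bool, {z | c (cat (s k ++ [ε]) z) = β} ∈ residual (ℕ → Bool) := by
    intro ε
    have h2 := (tendsto_residual_of_isOpenMap (continuous_cat (m ++ [ε])) (isOpenMap_cat (m ++ [ε]))) hl
    filter_upwards [h2] with z hz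
    have h3 : c (cat l (cat (m ++ [ε]) z)) = β := hz
    rw [← cat_append, ← List.append_assoc, hm] at h3
    exact h3
  obtain ⟨z, hz1, hz2⟩ := (dense_of_mem_residual (inter_mem (h1 false) (h1 true))).nonempty
  exact ⟨k, z, hz1.trans hz2.symm⟩

theorem const_of_inv {Y : Type} [TopologicalSpace Y] [T2Space Y] {s : ℕ → List Bool} (hs : ∀ k, (s k).length = k)
    {g : (ℕ → Bool) → Y} (hg : Continuous g)
    (h : ∀ k z, g (cat (s k ++ [false]) z) = g (cat (s k ++ [true]) z)) (z z' : ℕ → Bool) : g z = g z' := by
  have key : ∀ n (l l' : List Bool), l.length = n → l'.length = n → ∀ z, g (cat l z) = g (cat l' z) := by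
    intro n
    induction n with
    | zero =>
      intro l l' hl hl' z
      rw [List.length_eq_zero_iff.1 hl, List.length_eq_zero_iff.1 hl']
    | succ n ih =>
      intro l l' hl hl' z
      have hne : l ≠ [] := by rintro rfl; simp at hl
      have hne' : l' ≠ [] := by rintro rfl; simp at hl'
      rw [← List.dropLast_append_getLast hne, ← List.dropLast_append_getLast hne', cat_append, cat_append,
        ih l.dropLast (s n) (by rw [List.length_dropLast]; omega) (hs n),
        ih l'.dropLast (s n) (by rw [List.length_dropLast]; omega) (hs n), ← cat_append, ← cat_append]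
      cases l.getLast hne <;> cases l'.getLast hne'
      · rfl
      · exact h n z
      · exact (h n z).symm
      · rfl
  have hz' : ∀ n, z' = cat (pb z' n) (fun i => z' (i + n)) := by
    intro n
    funext i
    unfold cat
    by_cases hi : i < n
    · rw [dif_pos (by rw [length_pb]; exact hi), getElem_pb]
    · rw [dif_neg (by rw [length_pb]; exact hi), length_pb]
      show z' i = z' (i - n + n)
      rw [Nat.sub_add_cancel (not_lt.1 hi)]
  have h1 : Tendsto (fun n => g (cat (pb z n) (fun i => z' (i + n)))) atTop (𝓝 (g z)) :=
    (hg.tendsto z).comp (tendsto_cat_pb z fun n => fun i => z' (i + n))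
  have h2 : (fun n => g (cat (pb z n) (fun i => z' (i + n)))) = fun _ => g z' := by
    funext n
    rw [key n (pb z n) (pb z' n) (length_pb _ _) (length_pb _ _), ← hz']
  rw [h2] at h1
  exact (tendsto_nhds_unique h1 tendsto_const_nhds)

end Pool.Agent.Helper56.GZ
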