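import Pool.Agent.Helper56.CI.Phi

/-! # The dichotomy for countable Borel colourings of analytic relations -/

set_option autoImplicit false

open MeasureTheory Filter Topology

namespace Pool.Agent.Helper56.GZ

open Pool.Agent.Helper56.CI (measurable_sInf_nat)

variable {Z : Type}

/-- the complement of the Borel set `S` has a countable Borel colouring -/
def Co [MeasurableSpace Z] (O : Set (Z × Z)) (S : Set Z) : Prop :=
  MeasurableSet S ∧ ∃ c : Z → ℕ, Measurable c ∧ ∀ p ∈ O, p.1 ∉ S → p.2 ∉ S → c p.1 ≠ c p.2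

theorem co_univ [MeasurableSpace Z] (O : Set (Z × Z)) : Co O Set.univ :=
  ⟨MeasurableSet.univ, fun _ => 0, measurable_const, fun _ _ h => (h (Set.mem_univ _)).elim⟩

theorem co_iInter_nat [MeasurableSpace Z] {O : Set (Z × Z)} {S : ℕ → Set Z} (h : ∀ i, Co O (S i)) :
    Co O (⋂ i, S i) := by
  choose h1 c hc h2 using h
  refine ⟨MeasurableSet.iInter h1, fun z => Nat.pair (sInf {i | z ∉ S i}) (c (sInf {i | z ∉ S i}) z), ?_, ?_⟩
  · have m1 : Measurable fun z => sInf {i | z ∉ S i} := measurable_sInf_nat fun i => (h1 i).compl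
    have m2 : Measurable fun p : Z × ℕ => Nat.pair p.2 (c p.2 p.1) := by
      apply measurable_from_prod_countable_left
      intro i
      exact (Measurable.of_discrete (f := fun t : ℕ => Nat.pair i t)).comp (hc i)
    exact m2.comp (measurable_id.prodMk m1)
  · intro p hp hp1 hp2 e
    have mem : ∀ z, z ∉ ⋂ i, S i → z ∉ S (sInf {i | z ∉ S i}) := by
      intro z hz
      have hne : {i | z ∉ S i}.Nonempty := by
        rw [Set.mem_iInter, not_forall] at hz
        exact hz
      exact Nat.sInf_mem hne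
    obtain ⟨e1, e2⟩ := Nat.pair_eq_pair.1 e
    have k1 := mem _ hp1
    have k2 := mem _ hp2
    rw [e1] at k1 e2
    exact h2 _ p hp k1 k2 e2

theorem co_iInter [MeasurableSpace Z] {O : Set (Z × Z)} {ι : Type} [Countable ι] {S : ι → Set Z}
    (h : ∀ i, Co O (S i)) : Co O (⋂ i, S i) := by
  rcases isEmpty_or_nonempty ι with hι | hι
  · rw [Set.iInter_of_empty]
    exact co_univ O
  · obtain ⟨f, hf⟩ := exists_surjective_nat ι
    rw [← hf.iInter_comp]
    exact co_iInter_nat fun i => h (f i)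

theorem co_diff [MeasurableSpace Z] {O : Set (Z × Z)} {S B : Set Z} (h : Co O S) (hB : MeasurableSet B)
    (hind : ∀ p ∈ O, p.1 ∈ B → p.2 ∉ B) : Co O (S \ B) := by
  classical
  obtain ⟨h1, c, hc, h2⟩ := h
  refine ⟨h1.diff hB, fun z => if z ∈ B then 0 else c z + 1, ?_, ?_⟩
  · exact Measurable.ite hB measurable_const (hc.add_const 1)
  · intro p hp hp1 hp2
    dsimp only
    by_cases k1 : p.1 ∈ B <;> by_cases k2 : p.2 ∈ B
    · exact (hind p hp k1 k2).elim
    · rw [if_pos k1, if_neg k2]; omega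
    · rw [if_neg k1, if_pos k2]; omega
    · rw [if_neg k1, if_neg k2]
      have := h2 p hp (fun h => hp1 ⟨h, k1⟩) (fun h => hp2 ⟨h, k2⟩)
      omega

theorem analytic_inter {Y : Type} [TopologicalSpace Y] [T2Space Y] {s t : Set Y} (hs : AnalyticSet s)
    (ht : AnalyticSet t) : AnalyticSet (s ∩ t) := by
  rw [Set.inter_eq_iInter]
  refine AnalyticSet.iInter fun b => ?_
  cases b
  · exact ht
  · exact hs

theorem indep_sep [TopologicalSpace Z] [PolishSpace Z] [MeasurableSpace Z] [BorelSpace Z] {O : Set (Z × Z)}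
    (hO : AnalyticSet O) {A : Set Z} (hA : AnalyticSet A) (hind : ∀ p ∈ O, p.1 ∈ A → p.2 ∉ A) :
    ∃ B, MeasurableSet B ∧ A ⊆ B ∧ ∀ p ∈ O, p.1 ∈ B → p.2 ∉ B := by
  have a1 : AnalyticSet (Prod.snd '' (O ∩ Prod.fst ⁻¹' A)) :=
    (analytic_inter hO (hA.preimage continuous_fst)).image_of_continuous continuous_snd
  obtain ⟨B0, hAB0, hd0, hB0⟩ := hA.measurablySeparable a1 (by
    rw [Set.disjoint_left]
    rintro y hy ⟨p, ⟨hp, hp1⟩, rfl⟩
    exact hind p hp hp1 hy)
  have a2 : AnalyticSet (Prod.fst '' (O ∩ Prod.snd ⁻¹' B0)) :=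
    (analytic_inter hO (hB0.analyticSet.preimage continuous_snd)).image_of_continuous continuous_fst
  obtain ⟨B1, hAB1, hd1, hB1⟩ := hA.measurablySeparable a2 (by
    rw [Set.disjoint_left]
    rintro y hy ⟨p, ⟨hp, hp1⟩, rfl⟩
    exact Set.disjoint_left.1 hd0 ⟨p, ⟨hp, hy⟩, rfl⟩ hp1)
  refine ⟨B0 ∩ B1, hB0.inter hB1, Set.subset_inter hAB0 hAB1, fun p hp hp1 hp2 => ?_⟩
  exact Set.disjoint_left.1 hd1 ⟨p, ⟨hp, hp2.1⟩, rfl⟩ hp1.2

/-! ## Configurations -/

/-- the space of configurations -/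
abbrev W : Type := (List Bool → (ℕ → ℕ)) × (ℕ → List Bool → (ℕ → ℕ))

/-- large sets of configurations -/
def Lg [MeasurableSpace Z] (O : Set (Z × Z)) (π : (ℕ → ℕ) → Z) (n : ℕ) (H : Set W) : Prop :=
  ∀ S, Co O S → ∃ γ ∈ H, ∀ t : List Bool, t.length = n → π (γ.1 t) ∈ S

/-- the two halves -/
def lft (ε : Bool) (γ : W) : W := (fun t => γ.1 (t ++ [ε]), fun k t => γ.2 k (t ++ [ε]))

/-- the double of a set of configurations -/
def Ds (π : (ℕ → ℕ) → Z) (ρ : (ℕ → ℕ) → Z × Z) (s : ℕ → List Bool) (n : ℕ) (H : Set W) : Set W :=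
  {γ | lft false γ ∈ H ∧ lft true γ ∈ H ∧
    ρ (γ.2 n []) = (π (γ.1 (s n ++ [false])), π (γ.1 (s n ++ [true])))}

/-- joining two configurations -/
def jn (γ0 γ1 : W) (v : ℕ → ℕ) : W :=
  (fun t => if t.getLast? = some true then γ1.1 t.dropLast else γ0.1 t.dropLast,
    fun k t => if t = [] then v else if t.getLast? = some true then γ1.2 k t.dropLast else γ0.2 k t.dropLast)

theorem lft_jn_false (γ0 γ1 : W) (v : ℕ → ℕ) : lft false (jn γ0 γ1 v) = γ0 := by
  apply Prod.ext
  · funext t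
    simp [lft, jn]
  · funext k t
    simp [lft, jn]

theorem lft_jn_true (γ0 γ1 : W) (v : ℕ → ℕ) : lft true (jn γ0 γ1 v) = γ1 := by
  apply Prod.ext
  · funext t
    simp [lft, jn]
  · funext k t
    simp [lft, jn]

theorem jn_nil (γ0 γ1 : W) (v : ℕ → ℕ) (k : ℕ) : (jn γ0 γ1 v).2 k [] = v := rfl

theorem jn_append (γ0 γ1 : W) (v : ℕ → ℕ) (t : List Bool) (ε : Bool) :
    (jn γ0 γ1 v).1 (t ++ [ε]) = if ε = true then γ1.1 t else γ0.1 t := by
  cases ε <;> simp [jn]

theorem measurable_lft (ε : Bool) : Measurable (lft ε) := by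
  refine Measurable.prodMk (measurable_pi_lambda _ fun t => ?_)
    (measurable_pi_lambda _ fun k => measurable_pi_lambda _ fun t => ?_)
  · exact (measurable_pi_apply (t ++ [ε])).comp measurable_fst
  · exact (measurable_pi_apply (t ++ [ε])).comp ((measurable_pi_apply k).comp measurable_snd)

theorem lg_split [MeasurableSpace Z] {O : Set (Z × Z)} {π : (ℕ → ℕ) → Z} {n : ℕ} {H : Set W} {ι : Type}
    [Countable ι] (g : W → ι) (h : Lg O π n H) : ∃ i, Lg O π n (H ∩ g ⁻¹' {i}) := by
  by_contra hcon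
  push Not at hcon
  have h1 : ∀ i, ∃ S, Co O S ∧ ∀ γ ∈ H ∩ g ⁻¹' {i}, ∃ t : List Bool, t.length = n ∧ π (γ.1 t) ∉ S := by
    intro i
    have := hcon i
    unfold Lg at this
    push Not at this
    exact this
  choose S hS h2 using h1
  obtain ⟨γ, hγ, h3⟩ := h _ (co_iInter hS)
  obtain ⟨t, ht, h4⟩ := h2 (g γ) γ ⟨hγ, rfl⟩
  exact h4 (Set.mem_iInter.1 (h3 t ht) (g γ))

section

variable [TopologicalSpace Z] [PolishSpace Z] [MeasurableSpace Z] [BorelSpace Z] {O : Set (Z × Z)}
  {π : (ℕ → ℕ) → Z} {ρ : (ℕ → ℕ) → Z × Z} {s : ℕ → List Bool}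

theorem lg_Ds (hπ : Continuous π) (hO : AnalyticSet O) (hρ : Set.range ρ = O)
    (hs : ∀ k, (s k).length = k) {n : ℕ} {H : Set W} (hH : MeasurableSet H) (h : Lg O π n H) :
    Lg O π (n + 1) (Ds π ρ s n H) := by
  by_contra hcon
  unfold Lg at hcon
  push Not at hcon
  obtain ⟨S, hS, hcon⟩ := hcon
  have hπm : ∀ t : List Bool, Measurable fun γ : W => π (γ.1 t) := fun t =>
    hπ.measurable.comp ((measurable_pi_apply t).comp measurable_fst)
  let A0 : Set W := H ∩ {γ | ∀ t : List Bool, t.length = n → π (γ.1 t) ∈ S}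
  have hA0 : MeasurableSet A0 := by
    refine hH.inter ?_
    have e : {γ : W | ∀ t : List Bool, t.length = n → π (γ.1 t) ∈ S} =
        ⋂ t : List Bool, ⋂ (_ : t.length = n), {γ | π (γ.1 t) ∈ S} := by
      ext γ
      simp only [Set.mem_ofPred_eq, Set.mem_iInter]
    rw [e]
    exact MeasurableSet.iInter fun t => MeasurableSet.iInter fun _ => (hπm t) hS.1
  have hA : AnalyticSet ((fun γ : W => π (γ.1 (s n))) '' A0) := hA0.analyticSet_image (hπm (s n))
  obtain ⟨B, hB, hAB, hBi⟩ := indep_sep hO hA (by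
    rintro p hp ⟨γ0, h0, e0⟩ ⟨γ1, h1, e1⟩
    rw [← hρ] at hp
    obtain ⟨v, hv⟩ := hp
    obtain ⟨t, ht, h2⟩ := hcon (jn γ0 γ1 v) (by
      refine ⟨?_, ?_, ?_⟩
      · rw [lft_jn_false]; exact h0.1
      · rw [lft_jn_true]; exact h1.1
      · rw [jn_nil, jn_append, jn_append, hv]
        simp only [Bool.false_eq_true, if_false, if_true]
        exact Prod.ext e0.symm e1.symm)
    apply h2
    have hne : t ≠ [] := by
      rintro rfl
      simp at ht
    rw [← List.dropLast_append_getLast hne, jn_append]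
    have hlen : t.dropLast.length = n := by rw [List.length_dropLast]; omega
    cases t.getLast hne
    · exact h0.2 _ hlen
    · exact h1.2 _ hlen)
  obtain ⟨γ, hγ, h2⟩ := h _ (co_diff hS hB hBi)
  have h3 := h2 (s n) (hs n)
  exact h3.2 (hAB ⟨γ, ⟨hγ, fun t ht => (h2 t ht).1⟩, rfl⟩)

/-- the values are decided -/
def Dec (n : ℕ) (H : Set W) : Prop :=
  ∀ γ ∈ H, ∀ γ' ∈ H, ∀ t : List Bool, t.length ≤ n → ∀ j < n, γ.1 t j = γ'.1 t j ∧
    ∀ k ≤ n, γ.2 k t j = γ'.2 k t j

omit [TopologicalSpace Z] [PolishSpace Z] [BorelSpace Z] in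
theorem exists_dec {n : ℕ} {H : Set W} (hH : MeasurableSet H) (h : Lg O π n H) :
    ∃ H' ⊆ H, MeasurableSet H' ∧ Lg O π n H' ∧ Dec n H' := by
  let F : Finset (List Bool × ℕ × ℕ) :=
    (List.finite_length_le Bool n).toFinset ×ˢ (Finset.range (n + 1) ×ˢ Finset.range n)
  let g : W → (F → ℕ × ℕ) := fun γ q => (γ.1 q.1.1 q.1.2.2, γ.2 q.1.2.1 q.1.1 q.1.2.2)
  have hg : Measurable g := by
    refine measurable_pi_lambda _ fun q => Measurable.prodMk ?_ ?_
    · exact (measurable_pi_apply _).comp ((measurable_pi_apply _).comp measurable_fst)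
    · exact (measurable_pi_apply _).comp ((measurable_pi_apply _).comp
        ((measurable_pi_apply _).comp measurable_snd))
  obtain ⟨i, hi⟩ := lg_split g h
  refine ⟨_, Set.inter_subset_left, hH.inter (hg (measurableSet_singleton i)), hi, ?_⟩
  rintro γ ⟨_, h1⟩ γ' ⟨_, h2⟩ t ht j hj
  have h3 : g γ = g γ' := h1.trans h2.symm
  have hmem : ∀ k ≤ n, (t, k, j) ∈ F := by
    intro k hk
    simp only [F, Finset.mem_product, Set.Finite.mem_toFinset, Set.mem_ofPred_eq, Finset.mem_range]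
    exact ⟨ht, by omega, hj⟩
  refine ⟨?_, fun k hk => ?_⟩
  · exact (Prod.mk.inj (congrFun h3 ⟨_, hmem 0 (Nat.zero_le _)⟩)).1
  · exact (Prod.mk.inj (congrFun h3 ⟨_, hmem k hk⟩)).2

theorem exists_seq (hπ : Continuous π) (hρc : Continuous ρ) (hπs : Function.Surjective π) (hO : AnalyticSet O)
    (hρ : Set.range ρ = O) (hs : ∀ k, (s k).length = k)
    (hno : ¬ ∃ c : Z → ℕ, Measurable c ∧ ∀ p ∈ O, c p.1 ≠ c p.2) :
    ∃ Hs : ℕ → Set W, (∀ n, Lg O π n (Hs n) ∧ Dec n (Hs n)) ∧ ∀ n, Hs (n + 1) ⊆ Ds π ρ s n (Hs n) := by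
  have h0 : MeasurableSet (Set.univ : Set W) ∧ Lg O π 0 Set.univ ∧ Dec 0 Set.univ := by
    refine ⟨MeasurableSet.univ, ?_, fun _ _ _ _ _ _ j hj => absurd hj (by omega)⟩
    intro S hS
    have hne : S.Nonempty := by
      by_contra hcon
      rw [Set.not_nonempty_iff_eq_empty] at hcon
      obtain ⟨_, c, hc, h1⟩ := hS
      exact hno ⟨c, hc, fun p hp => h1 p hp (by rw [hcon]; exact fun h => h) (by rw [hcon]; exact fun h => h)⟩
    obtain ⟨z, hz⟩ := hne
    obtain ⟨y, hy⟩ := hπs z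
    exact ⟨(fun _ => y, fun _ _ => y), trivial, fun t _ => by rw [hy]; exact hz⟩
  have step : ∀ n (H : {H : Set W // MeasurableSet H ∧ Lg O π n H ∧ Dec n H}),
      ∃ H' : {H : Set W // MeasurableSet H ∧ Lg O π (n + 1) H ∧ Dec (n + 1) H}, H'.1 ⊆ Ds π ρ s n H.1 := by
    rintro n ⟨H, h1, h2, h3⟩
    have hm : MeasurableSet (Ds π ρ s n H) := by
      have hπm : ∀ t : List Bool, Measurable fun γ : W => π (γ.1 t) := fun t =>
        hπ.measurable.comp ((measurable_pi_apply t).comp measurable_fst)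
      refine MeasurableSet.inter (measurable_lft false h1) (MeasurableSet.inter (measurable_lft true h1) ?_)
      refine measurableSet_eq_fun ?_ ((hπm _).prodMk (hπm _))
      exact hρc.measurable.comp ((measurable_pi_apply _).comp ((measurable_pi_apply n).comp measurable_snd))
    obtain ⟨H', k1, k2, k3, k4⟩ := exists_dec hm (lg_Ds hπ hO hρ hs h1 h2)
    exact ⟨⟨H', k2, k3, k4⟩, k1⟩
  choose f hf using step
  let Hs : ∀ n, {H : Set W // MeasurableSet H ∧ Lg O π n H ∧ Dec n H} := fun n => Nat.rec ⟨_, h0⟩ (fun n H => f n H) n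
  exact ⟨fun n => (Hs n).1, fun n => (Hs n).2.2, fun n => hf n (Hs n)⟩

end

/-! ## The limit -/

/-- the concatenation of a word and a sequence -/
def cat (l : List Bool) (z : ℕ → Bool) : ℕ → Bool := fun i => if h : i < l.length then l[i] else z (i - l.length)

/-- the restriction of a sequence -/
def pb (z : ℕ → Bool) (n : ℕ) : List Bool := (List.range n).map z

theorem length_pb (z : ℕ → Bool) (n : ℕ) : (pb z n).length = n := by
  unfold pb
  rw [List.length_map, List.length_range]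

theorem pb_succ (z : ℕ → Bool) (n : ℕ) : pb z (n + 1) = pb z n ++ [z n] := by
  unfold pb
  rw [List.range_succ, List.map_append, List.map_singleton]

theorem getElem_pb (z : ℕ → Bool) (n i : ℕ) (h : i < (pb z n).length) : (pb z n)[i] = z i := by
  simp [pb]

theorem pb_cat (l : List Bool) (z : ℕ → Bool) (n : ℕ) : pb (cat l z) (l.length + n) = l ++ pb z n := by
  apply List.ext_getElem
  · rw [length_pb, List.length_append, length_pb]
  · intro i h1 h2
    rw [getElem_pb]
    unfold cat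
    by_cases h : i < l.length
    · rw [dif_pos h, List.getElem_append_left h]
    · rw [dif_neg h, List.getElem_append_right (not_lt.1 h), getElem_pb]

/-- a sequence of sequences with stabilising entries converges -/
theorem tendsto_of_stab {u : ℕ → ℕ → ℕ} {N : ℕ → ℕ} (h : ∀ j n, N j ≤ n → u (n + 1) j = u n j) :
    Tendsto u atTop (𝓝 fun j => u (N j) j) := by
  rw [tendsto_pi_nhds]
  intro j
  have h1 : ∀ n, N j ≤ n → u n j = u (N j) j := by
    intro n hn
    induction n, hn using Nat.le_induction with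
    | base => rfl
    | succ n hn ih => rw [h j n hn, ih]
  refine tendsto_const_nhds.congr' ?_
  filter_upwards [eventually_ge_atTop (N j)] with n hn
  exact (h1 n hn).symm

section

variable [TopologicalSpace Z] [PolishSpace Z] [MeasurableSpace Z] [BorelSpace Z] {O : Set (Z × Z)}
  {π : (ℕ → ℕ) → Z} {ρ : (ℕ → ℕ) → Z × Z} {s : ℕ → List Bool}

theorem dich_aux (hπ : Continuous π) (hρc : Continuous ρ) (hπs : Function.Surjective π) (hO : AnalyticSet O)
    (hρ : Set.range ρ = O) (hs : ∀ k, (s k).length = k)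
    (hno : ¬ ∃ c : Z → ℕ, Measurable c ∧ ∀ p ∈ O, c p.1 ≠ c p.2) :
    ∃ φ : (ℕ → Bool) → Z, Continuous φ ∧ ∀ k z, (φ (cat (s k ++ [false]) z), φ (cat (s k ++ [true]) z)) ∈ O := by
  obtain ⟨Hs, h1, h2⟩ := exists_seq hπ hρc hπs hO hρ hs hno
  have hne : ∀ n, ∃ γ, γ ∈ Hs n := by
    intro n
    obtain ⟨γ, hγ, _⟩ := (h1 n).1 Set.univ (co_univ O)
    exact ⟨γ, hγ⟩
  choose g hg using hne
  have hlft : ∀ n (ε : Bool), ∀ γ ∈ Hs (n + 1), lft ε γ ∈ Hs n := by
    intro n ε γ hγ
    have := h2 n hγ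
    cases ε
    · exact this.1
    · exact this.2.1
  have hK : ∀ n, ∀ γ ∈ Hs n, ∀ k (t : List Bool), t.length + k + 1 = n →
      ρ (γ.2 k t) = (π (γ.1 (s k ++ false :: t)), π (γ.1 (s k ++ true :: t))) := by
    intro n
    induction n with
    | zero => intro γ _ k t ht; omega
    | succ n ih =>
      intro γ hγ k t ht
      by_cases h0 : t = []
      · subst h0
        have hk : k = n := by simp at ht; omega
        subst hk
        exact (h2 k hγ).2.2
      · have e := List.dropLast_append_getLast h0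
        have h3 := ih (lft (t.getLast h0) γ) (hlft n _ γ hγ) k t.dropLast (by
          rw [List.length_dropLast]
          have : 0 < t.length := List.length_pos_iff.2 h0
          omega)
        unfold lft at h3
        simp only [List.append_assoc, List.cons_append] at h3
        rw [e] at h3
        exact h3
  have hcoh : ∀ n (ε : Bool) (t : List Bool), t.length ≤ n → ∀ j < n,
      (g (n + 1)).1 (t ++ [ε]) j = (g n).1 t j ∧ ∀ k ≤ n, (g (n + 1)).2 k (t ++ [ε]) j = (g n).2 k t j := by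
    intro n ε t ht j hj
    exact (h1 n).2 _ (hlft n ε _ (hg (n + 1))) _ (hg n) t ht j hj
  let u : (ℕ → Bool) → ℕ → ℕ → ℕ := fun z n => (g n).1 (pb z n)
  let U : (ℕ → Bool) → ℕ → ℕ := fun z j => u z (j + 1) j
  have hu : ∀ z, Tendsto (u z) atTop (𝓝 (U z)) := by
    intro z
    apply tendsto_of_stab (N := fun j => j + 1)
    intro j n hn
    show (g (n + 1)).1 (pb z (n + 1)) j = (g n).1 (pb z n) j
    rw [pb_succ]
    exact (hcoh n (z n) (pb z n) (length_pb z n).le j (by omega)).1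
  have hUc : Continuous U := by
    refine continuous_pi fun j => ?_
    have e : (fun z : ℕ → Bool => U z j) = fun z => (fun v : Fin (j + 1) → Bool => (g (j + 1)).1 (List.ofFn v) j)
        (fun i => z i) := by
      funext z
      have e0 : pb z (j + 1) = List.ofFn fun i : Fin (j + 1) => z i := by
        apply List.ext_getElem
        · rw [length_pb, List.length_ofFn]
        · intro i _ _
          rw [getElem_pb, List.getElem_ofFn]
      show (g (j + 1)).1 (pb z (j + 1)) j = _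
      rw [e0]
    rw [e]
    exact (continuous_of_discreteTopology (f := fun v : Fin (j + 1) → Bool =>
      (g (j + 1)).1 (List.ofFn v) j)).comp (continuous_pi fun i => continuous_apply _)
  refine ⟨fun z => π (U z), hπ.comp hUc, fun k z => ?_⟩
  let v : ℕ → ℕ → ℕ := fun n => (g (k + 1 + n)).2 k (pb z n)
  have hv : Tendsto v atTop (𝓝 fun j => v (j + 1) j) := by
    apply tendsto_of_stab (N := fun j => j + 1)
    intro j n hn
    show (g (k + 1 + n + 1)).2 k (pb z (n + 1)) j = (g (k + 1 + n)).2 k (pb z n) j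
    rw [pb_succ]
    exact (hcoh (k + 1 + n) (z n) (pb z n) (by rw [length_pb]; omega) j (by omega)).2 k (by omega)
  have hlim1 : Tendsto (fun n => ρ (v n)) atTop (𝓝 (ρ fun j => v (j + 1) j)) := (hρc.tendsto _).comp hv
  have hlim2 : Tendsto (fun n => ρ (v n)) atTop
      (𝓝 (π (U (cat (s k ++ [false]) z)), π (U (cat (s k ++ [true]) z)))) := by
    have hadd : Tendsto (fun n => k + 1 + n) atTop atTop := tendsto_atTop_mono (fun n => (by show n ≤ k + 1 + n; omega)) tendsto_id
    have e : (fun n => ρ (v n)) = fun n => (π (u (cat (s k ++ [false]) z) (k + 1 + n)),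
        π (u (cat (s k ++ [true]) z) (k + 1 + n))) := by
      funext n
      show ρ ((g (k + 1 + n)).2 k (pb z n)) = _
      rw [hK (k + 1 + n) _ (hg _) k (pb z n) (by rw [length_pb]; omega)]
      have e1 : ∀ ε, s k ++ ε :: pb z n = pb (cat (s k ++ [ε]) z) (k + 1 + n) := by
        intro ε
        have := pb_cat (s k ++ [ε]) z n
        rw [List.length_append, hs, List.length_singleton] at this
        rw [this, List.append_assoc, List.singleton_append]
      rw [e1, e1]
    rw [e]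
    refine Tendsto.prodMk_nhds ?_ ?_
    · exact (hπ.tendsto _).comp ((hu _).comp hadd)
    · exact (hπ.tendsto _).comp ((hu _).comp hadd)
  have h3 := tendsto_nhds_unique hlim2 hlim1
  rw [h3, ← hρ]
  exact ⟨_, rfl⟩

/-- the dichotomy -/
theorem dich (hO : AnalyticSet O) (hs : ∀ k, (s k).length = k)
    (hno : ¬ ∃ c : Z → ℕ, Measurable c ∧ ∀ p ∈ O, c p.1 ≠ c p.2) :
    ∃ φ : (ℕ → Bool) → Z, Continuous φ ∧ ∀ k z, (φ (cat (s k ++ [false]) z), φ (cat (s k ++ [true]) z)) ∈ O := by
  have hO' := hO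
  rw [AnalyticSet] at hO
  rcases hO with hO | ⟨ρ, hρc, hρ⟩
  · exact (hno ⟨fun _ => 0, measurable_const, fun p hp => by rw [hO] at hp; exact hp.elim⟩).elim
  · have hne : Nonempty Z := ⟨(ρ fun _ => 0).1⟩
    obtain ⟨π, hπ, hπs⟩ := PolishSpace.exists_nat_nat_continuous_surjective Z
    exact dich_aux hπ hρc hπs hO' hρ hs hno

end

end Pool.Agent.Helper56.GZ
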