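import Pool.Agent.Helper56.CI.Codes

/-! # Evaluating Borel codes; an analytic set which is not Borel -/

set_option autoImplicit false

open MeasureTheory Filter Topology

namespace Pool.Agent.Helper56.GZ

open Pool.Agent.Helper56.CI

/-- the children of a code -/
def ch (c : ℕ → ℕ) (k : ℕ) : ℕ → ℕ :=
  if c 0 = 1 then fun i => c (i + 1) else if c 0 = 2 then fun i => c (Nat.pair k i + 1) else c

/-- the nodes of a code -/
def nd : (ℕ → ℕ) → List ℕ → (ℕ → ℕ)
  | c, [] => c
  | c, k :: w => nd (ch c k) w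

/-- correct evaluations -/
def Cor (c : ℕ → ℕ) (p : (ℕ → Bool) × (ℕ → Bool)) (e : List ℕ → Bool) : Prop :=
  ∀ w, (nd c w 0 = 1 → e w = !(e (w ++ [0]))) ∧ (nd c w 0 = 2 → (e w = true ↔ ∃ k, e (w ++ [k]) = true)) ∧
    (nd c w 0 ≠ 1 → nd c w 0 ≠ 2 → (e w = true ↔ p ∈ box (nd c w 1) (nd c w 2) (nd c w 3)))

theorem ch_one {c : ℕ → ℕ} (h : c 0 = 1) (k : ℕ) : ch c k = fun i => c (i + 1) := by
  unfold ch
  rw [if_pos h]

theorem ch_two {c : ℕ → ℕ} (h : c 0 = 2) (k : ℕ) : ch c k = fun i => c (Nat.pair k i + 1) := by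
  unfold ch
  rw [if_neg (by omega), if_pos h]

theorem ch_zero {c : ℕ → ℕ} (h : c 0 = 0) (k : ℕ) : ch c k = c := by
  unfold ch
  rw [if_neg (by omega), if_neg (by omega)]

theorem nd_zero {c : ℕ → ℕ} (h : c 0 = 0) (w : List ℕ) : nd c w = c := by
  induction w with
  | nil => rfl
  | cons k w ih => rw [nd, ch_zero h, ih]

theorem Cor.child {c : ℕ → ℕ} {p : (ℕ → Bool) × (ℕ → Bool)} {e : List ℕ → Bool} (h : Cor c p e) (k : ℕ) :
    Cor (ch c k) p (fun w => e (k :: w)) := fun w => h (k :: w)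

theorem cor_iff {c : ℕ → ℕ} {A : Set ((ℕ → Bool) × (ℕ → Bool))} (hc : Codes c A) :
    ∀ (p : (ℕ → Bool) × (ℕ → Bool)) (e : List ℕ → Bool), Cor c p e → (e [] = true ↔ p ∈ A) := by
  induction hc with
  | basic c h =>
    intro p e he
    exact (he []).2.2 (by show c 0 ≠ 1; omega) (by show c 0 ≠ 2; omega)
  | compl c A h hA ih =>
    intro p e he
    have h1 := he.child 0
    rw [ch_one h] at h1
    have h2 := ih p _ h1
    have h3 := (he []).1 h
    rw [h3, Set.mem_compl_iff, ← h2, Bool.not_eq_true', ← Bool.not_eq_true]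
    rfl
  | union c A h hA ih =>
    intro p e he
    rw [(he []).2.1 h, Set.mem_iUnion]
    refine exists_congr fun k => ?_
    have h1 := he.child k
    rw [ch_two h] at h1
    exact ih k p _ h1

theorem exists_cor {c : ℕ → ℕ} {A : Set ((ℕ → Bool) × (ℕ → Bool))} (hc : Codes c A) :
    ∀ p : (ℕ → Bool) × (ℕ → Bool), ∃ e : List ℕ → Bool, Cor c p e := by
  classical
  induction hc with
  | basic c h =>
    intro p
    refine ⟨fun _ => decide (p ∈ box (c 1) (c 2) (c 3)), fun w => ?_⟩
    rw [nd_zero h]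
    exact ⟨fun h1 => by omega, fun h1 => by omega, fun _ _ => by simp⟩
  | compl c A h hA ih =>
    intro p
    obtain ⟨e, he⟩ := ih p
    refine ⟨fun w => match w with | [] => !(e []) | _ :: w => e w, fun w => ?_⟩
    cases w with
    | nil =>
      refine ⟨fun _ => rfl, fun h1 => ?_, fun h1 => ?_⟩
      · change c 0 = 2 at h1
        omega
      · exact (h1 h).elim
    | cons k w =>
      have h1 := he w
      rw [← ch_one h k] at h1
      exact h1
  | union c A h hA ih =>
    intro p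
    choose e he using fun k => ih k p
    refine ⟨fun w => match w with | [] => decide (∃ k, e k [] = true) | k :: w => e k w, fun w => ?_⟩
    cases w with
    | nil =>
      refine ⟨fun h1 => ?_, fun _ => ?_, fun _ h1 => ?_⟩
      · change c 0 = 1 at h1
        omega
      · show decide (∃ k, e k [] = true) = true ↔ ∃ k, e k [] = true
        simp
      · exact (h1 h).elim
    | cons k w =>
      have h1 := he k w
      rw [← ch_two h k] at h1
      exact h1

theorem measurable_nd (w : List ℕ) : Measurable fun c : ℕ → ℕ => nd c w := by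
  induction w with
  | nil => exact measurable_id
  | cons k w ih =>
    have h1 : Measurable fun c : ℕ → ℕ => ch c k := by
      have h0 : Measurable fun c : ℕ → ℕ => c 0 := measurable_pi_apply 0
      refine Measurable.ite (h0 (measurableSet_singleton 1)) ?_ (Measurable.ite (h0 (measurableSet_singleton 2)) ?_ ?_)
      · exact measurable_pi_lambda _ fun i => measurable_pi_apply _
      · exact measurable_pi_lambda _ fun i => measurable_pi_apply _
      · exact measurable_id
    exact ih.comp h1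

theorem measurableSet_Cor : MeasurableSet {q : ((ℕ → ℕ) × ((ℕ → Bool) × (ℕ → Bool))) × (List ℕ → Bool) |
    Cor q.1.1 q.1.2 q.2} := by
  have hbox : MeasurableSet {q : (ℕ × ℕ × ℕ) × ((ℕ → Bool) × (ℕ → Bool)) | q.2 ∈ box q.1.1 q.1.2.1 q.1.2.2} := by
    have e : {q : (ℕ × ℕ × ℕ) × ((ℕ → Bool) × (ℕ → Bool)) | q.2 ∈ box q.1.1 q.1.2.1 q.1.2.2} =
        ⋃ t : ℕ × ℕ × ℕ, ({q | q.1 = t} ∩ {q | q.2 ∈ box t.1 t.2.1 t.2.2}) := by
      ext q
      simp only [Set.mem_ofPred_eq, Set.mem_iUnion, Set.mem_inter_iff]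
      constructor
      · intro h; exact ⟨q.1, rfl, h⟩
      · rintro ⟨t, h1, h2⟩; rw [h1]; exact h2
    rw [e]
    exact MeasurableSet.iUnion fun t => (measurable_fst (measurableSet_singleton t)).inter
      (measurable_snd (measurableSet_box _ _ _))
  have hnd : ∀ (w : List ℕ) (i : ℕ), Measurable fun q : ((ℕ → ℕ) × ((ℕ → Bool) × (ℕ → Bool))) × (List ℕ → Bool) =>
      nd q.1.1 w i := fun w i =>
    (measurable_pi_apply i).comp ((measurable_nd w).comp (measurable_fst.comp measurable_fst))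
  have he : ∀ w : List ℕ, Measurable fun q : ((ℕ → ℕ) × ((ℕ → Bool) × (ℕ → Bool))) × (List ℕ → Bool) => q.2 w :=
    fun w => (measurable_pi_apply w).comp measurable_snd
  have e : {q : ((ℕ → ℕ) × ((ℕ → Bool) × (ℕ → Bool))) × (List ℕ → Bool) | Cor q.1.1 q.1.2 q.2} =
      ⋂ w : List ℕ, (({q | nd q.1.1 w 0 = 1}ᶜ ∪ {q | q.2 w = !(q.2 (w ++ [0]))}) ∩
        (({q | nd q.1.1 w 0 = 2}ᶜ ∪ (({q | q.2 w = true} ∩ ⋃ k, {q | q.2 (w ++ [k]) = true}) ∪
          ({q | q.2 w = true}ᶜ ∩ (⋃ k, {q | q.2 (w ++ [k]) = true})ᶜ))) ∩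
        ({q | nd q.1.1 w 0 = 1} ∪ ({q | nd q.1.1 w 0 = 2} ∪ (({q | q.2 w = true} ∩
          {q | q.1.2 ∈ box (nd q.1.1 w 1) (nd q.1.1 w 2) (nd q.1.1 w 3)}) ∪ ({q | q.2 w = true}ᶜ ∩
          {q | q.1.2 ∈ box (nd q.1.1 w 1) (nd q.1.1 w 2) (nd q.1.1 w 3)}ᶜ)))))) := by
    ext q
    simp only [Cor, Set.mem_ofPred_eq, Set.mem_iInter, Set.mem_inter_iff, Set.mem_union, Set.mem_compl_iff,
      Set.mem_iUnion]
    refine forall_congr' fun w => ?_
    have key : ∀ a b c d f g : Prop, ((a → b) ∧ (c → (d ↔ f)) ∧ (¬a → ¬c → (d ↔ g))) ↔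
        ((¬a ∨ b) ∧ (¬c ∨ ((d ∧ f) ∨ (¬d ∧ ¬f))) ∧ (a ∨ (c ∨ ((d ∧ g) ∨ (¬d ∧ ¬g))))) := by
      intro a b c d f g
      by_cases a <;> by_cases c <;> by_cases d <;> by_cases f <;> by_cases g <;> simp_all
    exact key _ _ _ _ _ _
  rw [e]
  have hm : ∀ w : List ℕ, MeasurableSet {q : ((ℕ → ℕ) × ((ℕ → Bool) × (ℕ → Bool))) × (List ℕ → Bool) |
      q.1.2 ∈ box (nd q.1.1 w 1) (nd q.1.1 w 2) (nd q.1.1 w 3)} := by
    intro w
    have h1 : Measurable fun q : ((ℕ → ℕ) × ((ℕ → Bool) × (ℕ → Bool))) × (List ℕ → Bool) =>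
        ((nd q.1.1 w 1, nd q.1.1 w 2, nd q.1.1 w 3), q.1.2) :=
      ((hnd w 1).prodMk ((hnd w 2).prodMk (hnd w 3))).prodMk (measurable_snd.comp measurable_fst)
    exact h1 hbox
  have hU : ∀ w : List ℕ, MeasurableSet (⋃ k : ℕ, {q : ((ℕ → ℕ) × ((ℕ → Bool) × (ℕ → Bool))) × (List ℕ → Bool) |
      q.2 (w ++ [k]) = true}) := fun w => MeasurableSet.iUnion fun k => he _ (measurableSet_singleton true)
  have ht : ∀ w : List ℕ, MeasurableSet {q : ((ℕ → ℕ) × ((ℕ → Bool) × (ℕ → Bool))) × (List ℕ → Bool) |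
      q.2 w = true} := fun w => he _ (measurableSet_singleton true)
  have h1 : ∀ w : List ℕ, MeasurableSet {q : ((ℕ → ℕ) × ((ℕ → Bool) × (ℕ → Bool))) × (List ℕ → Bool) |
      nd q.1.1 w 0 = 1} := fun w => hnd w 0 (measurableSet_singleton 1)
  have h2 : ∀ w : List ℕ, MeasurableSet {q : ((ℕ → ℕ) × ((ℕ → Bool) × (ℕ → Bool))) × (List ℕ → Bool) |
      nd q.1.1 w 0 = 2} := fun w => hnd w 0 (measurableSet_singleton 2)
  have h3 : ∀ w : List ℕ, MeasurableSet {q : ((ℕ → ℕ) × ((ℕ → Bool) × (ℕ → Bool))) × (List ℕ → Bool) |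
      q.2 w = !(q.2 (w ++ [0]))} := fun w =>
    ((he w).prodMk (he (w ++ [0]))) (MeasurableSet.of_discrete (s := {t : Bool × Bool | t.1 = !t.2}))
  exact MeasurableSet.iInter fun w => (((h1 w).compl.union (h3 w))).inter
    (((h2 w).compl.union (((ht w).inter (hU w)).union ((ht w).compl.inter (hU w).compl))).inter
      ((h1 w).union ((h2 w).union (((ht w).inter (hm w)).union ((ht w).compl.inter (hm w).compl)))))

/-- Borel families of codes give Borel sets -/
theorem measurableSet_sections {P : Type} [TopologicalSpace P] [PolishSpace P] [MeasurableSpace P] [BorelSpace P]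
    {f : P → ℕ → ℕ} (hf : Measurable f) {A : P → Set ((ℕ → Bool) × (ℕ → Bool))} (hA : ∀ x, Codes (f x) (A x)) :
    MeasurableSet {q : P × ((ℕ → Bool) × (ℕ → Bool)) | q.2 ∈ A q.1} := by
  have hm : Measurable fun r : (P × ((ℕ → Bool) × (ℕ → Bool))) × (List ℕ → Bool) => ((f r.1.1, r.1.2), r.2) := by
    fun_prop
  have hr : ∀ β : Bool, MeasurableSet {r : (P × ((ℕ → Bool) × (ℕ → Bool))) × (List ℕ → Bool) |
      Cor (f r.1.1) r.1.2 r.2 ∧ r.2 [] = β} := by
    intro β
    refine MeasurableSet.inter (hm measurableSet_Cor) ?_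
    have : Measurable fun r : (P × ((ℕ → Bool) × (ℕ → Bool))) × (List ℕ → Bool) => r.2 [] := by fun_prop
    exact this (measurableSet_singleton β)
  have e1 : {q : P × ((ℕ → Bool) × (ℕ → Bool)) | q.2 ∈ A q.1} = Prod.fst ''
      {r : (P × ((ℕ → Bool) × (ℕ → Bool))) × (List ℕ → Bool) | Cor (f r.1.1) r.1.2 r.2 ∧ r.2 [] = true} := by
    ext q
    constructor
    · intro hq
      obtain ⟨e, he⟩ := exists_cor (hA q.1) q.2
      exact ⟨(q, e), ⟨he, (cor_iff (hA q.1) q.2 e he).2 hq⟩, rfl⟩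
    · rintro ⟨r, ⟨h1, h2⟩, rfl⟩
      exact (cor_iff (hA r.1.1) r.1.2 r.2 h1).1 h2
  have e2 : {q : P × ((ℕ → Bool) × (ℕ → Bool)) | q.2 ∈ A q.1}ᶜ = Prod.fst ''
      {r : (P × ((ℕ → Bool) × (ℕ → Bool))) × (List ℕ → Bool) | Cor (f r.1.1) r.1.2 r.2 ∧ r.2 [] = false} := by
    ext q
    constructor
    · intro hq
      obtain ⟨e, he⟩ := exists_cor (hA q.1) q.2
      refine ⟨(q, e), ⟨he, ?_⟩, rfl⟩
      by_contra h1
      exact hq ((cor_iff (hA q.1) q.2 e he).1 (Bool.eq_true_of_not_eq_false h1))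
    · rintro ⟨r, ⟨h1, h2⟩, rfl⟩ h3
      have := (cor_iff (hA r.1.1) r.1.2 r.2 h1).2 h3
      rw [h2] at this
      exact absurd this (by simp)
  apply AnalyticSet.measurableSet_of_compl
  · rw [e1]
    exact (hr true).analyticSet_image measurable_fst
  · rw [e2]
    exact (hr false).analyticSet_image measurable_fst

/-! ## An analytic set which is not Borel -/

instance polish_cantor : PolishSpace (ℕ → Bool) := {}

/-- the restrictions of a pair -/
def prs (x : ℕ → Bool) (y : ℕ → ℕ) (n : ℕ) : List Bool × List ℕ := ((List.range n).map x, (List.range n).map y)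

/-- the diagonal set -/
def Dg : Set (ℕ → Bool) := {x | ∃ y : ℕ → ℕ, ∀ n, x (Encodable.encode (prs x y n)) = true}

theorem exists_tree {A : Set (ℕ → Bool)} (hA : AnalyticSet A) :
    ∃ T : List Bool × List ℕ → Bool, ∀ x, x ∈ A ↔ ∃ y : ℕ → ℕ, ∀ n, T (prs x y n) = true := by
  classical
  rw [AnalyticSet] at hA
  rcases hA with rfl | ⟨g, hg, rfl⟩
  · refine ⟨fun _ => false, fun x => ⟨fun h => h.elim, ?_⟩⟩
    rintro ⟨y, hy⟩
    exact absurd (hy 0) (by simp)
  · refine ⟨fun q => decide (∃ y : ℕ → ℕ, q = prs (g y) y q.2.length), fun x => ⟨?_, ?_⟩⟩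
    · rintro ⟨y, rfl⟩
      refine ⟨y, fun n => ?_⟩
      rw [decide_eq_true_eq]
      exact ⟨y, by simp [prs]⟩
    · rintro ⟨y, hy⟩
      simp only [decide_eq_true_eq] at hy
      have h1 : ∀ n, ∃ y' : ℕ → ℕ, prs x y n = prs (g y') y' n := by
        intro n
        obtain ⟨y', h⟩ := hy n
        refine ⟨y', ?_⟩
        rw [h]
        simp [prs]
      choose Y hY using h1
      have hx : ∀ n, ∀ i < n, x i = g (Y n) i := by
        intro n i hi
        have h2 := congrArg (fun q : List Bool × List ℕ => q.1[i]?) (hY n)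
        simpa [prs, hi] using h2
      have hyy : ∀ n, ∀ i < n, y i = Y n i := by
        intro n i hi
        have h2 := congrArg (fun q : List Bool × List ℕ => q.2[i]?) (hY n)
        simpa [prs, hi] using h2
      have t1 : Tendsto Y atTop (𝓝 y) := by
        rw [tendsto_pi_nhds]
        intro i
        refine tendsto_const_nhds.congr' ?_
        filter_upwards [eventually_gt_atTop i] with n hn
        exact hyy n i hn
      have t2 : Tendsto (fun n => g (Y n)) atTop (𝓝 x) := by
        rw [tendsto_pi_nhds]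
        intro i
        refine tendsto_const_nhds.congr' ?_
        filter_upwards [eventually_gt_atTop i] with n hn
        exact hx n i hn
      exact ⟨y, tendsto_nhds_unique ((hg.tendsto y).comp t1) t2⟩

theorem measurableSet_DgC : MeasurableSet {q : (ℕ → Bool) × (ℕ → ℕ) |
    ∀ n, q.1 (Encodable.encode (prs q.1 q.2 n)) = true} := by
  have e : {q : (ℕ → Bool) × (ℕ → ℕ) | ∀ n, q.1 (Encodable.encode (prs q.1 q.2 n)) = true} =
      ⋂ n, {q | q.1 (Encodable.encode (prs q.1 q.2 n)) = true} := by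
    ext q
    simp
  rw [e]
  refine MeasurableSet.iInter fun n => ?_
  have h1 : Measurable fun q : (ℕ → Bool) × (ℕ → ℕ) => Encodable.encode (prs q.1 q.2 n) := by
    have h2 : Measurable fun q : (ℕ → Bool) × (ℕ → ℕ) => ((fun i : Fin n => q.1 i), (fun i : Fin n => q.2 i)) := by
      refine Measurable.prodMk (measurable_pi_lambda _ fun i => ?_) (measurable_pi_lambda _ fun i => ?_)
      · exact (measurable_pi_apply _).comp measurable_fst
      · exact (measurable_pi_apply _).comp measurable_snd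
    have h3 : Measurable fun q : (Fin n → Bool) × (Fin n → ℕ) =>
        Encodable.encode (List.ofFn q.1, List.ofFn q.2) := measurable_of_countable _
    have e2 : (fun q : (ℕ → Bool) × (ℕ → ℕ) => Encodable.encode (prs q.1 q.2 n)) =
        fun q => Encodable.encode (List.ofFn (fun i : Fin n => q.1 i), List.ofFn (fun i : Fin n => q.2 i)) := by
      funext q
      congr 1
      apply Prod.ext
      · apply List.ext_getElem
        · simp [prs]
        · intro i _ _
          simp [prs]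
      · apply List.ext_getElem
        · simp [prs]
        · intro i _ _
          simp [prs]
    rw [e2]
    exact h3.comp h2
  have h2 : Measurable fun p : (ℕ → Bool) × ℕ => p.1 p.2 :=
    measurable_from_prod_countable_left fun i => measurable_pi_apply i
  exact (h2.comp (measurable_fst.prodMk h1)) (measurableSet_singleton true)

theorem not_measurableSet_Dg : ¬ MeasurableSet Dg := by
  intro h
  obtain ⟨T, hT⟩ := exists_tree h.compl.analyticSet
  let x : ℕ → Bool := fun i => match Encodable.decode (α := List Bool × List ℕ) i with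
    | some q => T q
    | none => false
  have hx : ∀ q, x (Encodable.encode q) = T q := by
    intro q
    show (match Encodable.decode (α := List Bool × List ℕ) (Encodable.encode q) with
      | some q => T q
      | none => false) = T q
    rw [Encodable.encodek]
  have h1 : x ∈ Dg ↔ x ∈ Dgᶜ := by
    rw [hT x]
    show (∃ y : ℕ → ℕ, ∀ n, x (Encodable.encode (prs x y n)) = true) ↔ _
    simp only [hx]
  by_cases h2 : x ∈ Dg
  · exact (h1.1 h2) h2
  · exact h2 (h1.2 h2)

end Pool.Agent.Helper56.GZ
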