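import Pool.Agent.Helper56.GZ.Baire
import Pool.Agent.Helper56.GZ.Eval
import Pool.Agent.Helper56.CI.Final

/-! # Borel families of 2-regular graphs -/

set_option autoImplicit false

open MeasureTheory Filter Topology

namespace Pool.Agent.Helper56.GZ

open Pool.Agent.Helper56.CI

/-- the space of all triples -/
abbrev ZZ : Type := (ℕ → Bool) × ((ℕ → Bool) × (ℕ → Bool))

instance polish_ZZ : PolishSpace ZZ := {}

instance borel_ZZ : BorelSpace ZZ := Prod.borelSpace

instance polish_ZZ2 : PolishSpace (ZZ × ZZ) := {}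

instance borel_ZZ2 : BorelSpace (ZZ × ZZ) := Prod.borelSpace

/-- the darts -/
def EE (G : (ℕ → Bool) → SimpleGraph (ℕ → Bool)) : Set ZZ := {z | (G z.1).Adj z.2.1 z.2.2}

open Classical in
/-- the other neighbour -/
noncomputable def ot (G : (ℕ → Bool) → SimpleGraph (ℕ → Bool)) (z : ZZ) : ℕ → Bool :=
  if h : z ∈ EE G ∧ ∃ w, (G z.1).Adj z.2.2 w ∧ w ≠ z.2.1 then h.2.choose else z.2.1

/-- the next dart -/
noncomputable def NN (G : (ℕ → Bool) → SimpleGraph (ℕ → Bool)) (z : ZZ) : ZZ := (z.1, (z.2.2, ot G z))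

/-- the reversed dart -/
def FF (z : ZZ) : ZZ := (z.1, (z.2.2, z.2.1))

theorem analytic_union {Y : Type} [TopologicalSpace Y] {s t : Set Y} (hs : AnalyticSet s)
    (ht : AnalyticSet t) : AnalyticSet (s ∪ t) := by
  rw [Set.union_eq_iUnion]
  refine AnalyticSet.iUnion fun b => ?_
  cases b
  · exact ht
  · exact hs

section

variable {G : (ℕ → Bool) → SimpleGraph (ℕ → Bool)}

theorem ot_spec (hreg : ∀ x v, ((G x).neighborSet v).encard = 2) {z : ZZ} (hz : z ∈ EE G) :
    ((G z.1).Adj z.2.2 (ot G z) ∧ ot G z ≠ z.2.1) ∧ ∀ w, (G z.1).Adj z.2.2 w → w ≠ z.2.1 → w = ot G z := by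
  obtain ⟨a, b, hab, hN⟩ := Set.encard_eq_two.1 (hreg z.1 z.2.2)
  have hmem : ∀ w, (G z.1).Adj z.2.2 w ↔ w = a ∨ w = b := by
    intro w
    have : w ∈ (G z.1).neighborSet z.2.2 ↔ w ∈ ({a, b} : Set (ℕ → Bool)) := by rw [hN]
    simpa using this
  have hz' : z.2.1 = a ∨ z.2.1 = b := (hmem _).1 hz.symm
  have hex : ∃ w, (G z.1).Adj z.2.2 w ∧ w ≠ z.2.1 := by
    rcases hz' with h | h
    · exact ⟨b, (hmem b).2 (Or.inr rfl), by rw [h]; exact hab.symm⟩
    · exact ⟨a, (hmem a).2 (Or.inl rfl), by rw [h]; exact hab⟩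
  have hdef : ot G z = (show ∃ w, (G z.1).Adj z.2.2 w ∧ w ≠ z.2.1 from hex).choose := by
    unfold ot
    rw [dif_pos ⟨hz, hex⟩]
  have h1 : (G z.1).Adj z.2.2 (ot G z) ∧ ot G z ≠ z.2.1 := by
    rw [hdef]
    exact hex.choose_spec
  refine ⟨h1, fun w hw hne => ?_⟩
  have k1 := (hmem _).1 h1.1
  have k2 := (hmem _).1 hw
  have k3 := h1.2
  rcases hz' with h | h
  · rw [k1.resolve_left fun e => k3 (by rw [e, h]), k2.resolve_left fun e => hne (by rw [e, h])]
  · rw [k1.resolve_right fun e => k3 (by rw [e, h]), k2.resolve_right fun e => hne (by rw [e, h])]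

theorem NN_mem (hreg : ∀ x v, ((G x).neighborSet v).encard = 2) {z : ZZ} (hz : z ∈ EE G) : NN G z ∈ EE G :=
  (ot_spec hreg hz).1.1

theorem FF_mem {z : ZZ} (hz : z ∈ EE G) : FF z ∈ EE G := hz.symm

theorem FF_FF (z : ZZ) : FF (FF z) = z := rfl

theorem NN_eq (hreg : ∀ x v, ((G x).neighborSet v).encard = 2) {x u v w : ℕ → Bool} (h1 : (G x).Adj u v)
    (h2 : (G x).Adj v w) (h3 : w ≠ u) : NN G (x, (u, v)) = (x, (v, w)) := by
  have := (ot_spec hreg (z := (x, (u, v))) h1).2 w h2 h3
  unfold NN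
  rw [← this]

theorem NFNF (hreg : ∀ x v, ((G x).neighborSet v).encard = 2) {z : ZZ} (hz : z ∈ EE G) :
    NN G (FF (NN G (FF z))) = z := by
  obtain ⟨x, u, v⟩ := z
  have h1 : ((x, (v, u)) : ZZ) ∈ EE G := hz.symm
  obtain ⟨⟨h2, h3⟩, _⟩ := ot_spec hreg h1
  have e : FF (NN G (FF (x, (u, v)))) = (x, (ot G (x, (v, u)), u)) := rfl
  rw [e]
  exact NN_eq hreg h2.symm hz h3.symm

theorem measurable_ot (hreg : ∀ x v, ((G x).neighborSet v).encard = 2) (hE : MeasurableSet (EE G)) :
    Measurable (ot G) := by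
  have hA : ∀ C : Set (ℕ → Bool), MeasurableSet C → AnalyticSet (EE G ∩ ot G ⁻¹' C) := by
    intro C hC
    have e : EE G ∩ ot G ⁻¹' C = Prod.fst '' {r : ZZ × (ℕ → Bool) | (r.1 ∈ EE G ∧
        (r.1.1, (r.1.2.2, r.2)) ∈ EE G) ∧ (r.2 ≠ r.1.2.1 ∧ r.2 ∈ C)} := by
      ext z
      constructor
      · rintro ⟨h1, h2⟩
        obtain ⟨⟨h3, h4⟩, _⟩ := ot_spec hreg h1
        exact ⟨(z, ot G z), ⟨⟨h1, h3⟩, h4, h2⟩, rfl⟩
      · rintro ⟨r, ⟨⟨h1, h2⟩, h3, h4⟩, rfl⟩
        refine ⟨h1, ?_⟩
        show ot G r.1 ∈ C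
        rw [← (ot_spec hreg h1).2 _ h2 h3]
        exact h4
    rw [e]
    refine MeasurableSet.analyticSet_image ?_ measurable_fst
    refine MeasurableSet.inter (MeasurableSet.inter (measurable_fst hE) ?_) (MeasurableSet.inter ?_
      (measurable_snd hC))
    · have : Measurable fun r : ZZ × (ℕ → Bool) => (r.1.1, (r.1.2.2, r.2)) := by fun_prop
      exact this hE
    · exact (measurableSet_eq_fun (f := fun r : ZZ × (ℕ → Bool) => r.2) (g := fun r => r.1.2.1)
        (by fun_prop) (by fun_prop)).compl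
  have hB : ∀ C : Set (ℕ → Bool), MeasurableSet C → MeasurableSet (EE G ∩ ot G ⁻¹' C) := by
    intro C hC
    apply AnalyticSet.measurableSet_of_compl (hA C hC)
    have e : (EE G ∩ ot G ⁻¹' C)ᶜ = (EE G)ᶜ ∪ (EE G ∩ ot G ⁻¹' Cᶜ) := by
      ext z
      simp only [Set.mem_compl_iff, Set.mem_inter_iff, Set.mem_union, Set.mem_preimage]
      tauto
    rw [e]
    exact analytic_union hE.compl.analyticSet (hA _ hC.compl)
  intro C hC
  have e : ot G ⁻¹' C = (EE G ∩ ot G ⁻¹' C) ∪ ((EE G)ᶜ ∩ {z | z.2.1 ∈ C}) := by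
    ext z
    simp only [Set.mem_compl_iff, Set.mem_inter_iff, Set.mem_union, Set.mem_preimage, Set.mem_ofPred_eq]
    by_cases h : z ∈ EE G
    · simp [h]
    · have : ot G z = z.2.1 := by
        unfold ot
        rw [dif_neg fun h2 => h h2.1]
      simp [h, this]
  rw [e]
  have hm : Measurable fun z : ZZ => z.2.1 := by fun_prop
  exact (hB C hC).union (hE.compl.inter (hm hC))

theorem measurable_NN (hreg : ∀ x v, ((G x).neighborSet v).encard = 2) (hE : MeasurableSet (EE G)) :
    Measurable (NN G) := by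
  have := measurable_ot hreg hE
  unfold NN
  fun_prop

theorem measurable_FF : Measurable FF := by
  unfold FF
  fun_prop

/-! ## Words -/

/-- the action of words -/
noncomputable def ap (G : (ℕ → Bool) → SimpleGraph (ℕ → Bool)) : List Bool → ZZ → ZZ
  | [], z => z
  | b :: w, z => ap G w (if b = true then NN G z else FF z)

/-- the parity of a word -/
def par : List Bool → Bool
  | [] => false
  | b :: w => xor b (par w)

theorem ap_append (w w' : List Bool) (z : ZZ) : ap G (w ++ w') z = ap G w' (ap G w z) := by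
  induction w generalizing z with
  | nil => rfl
  | cons b w ih => exact ih _

theorem par_append (w w' : List Bool) : par (w ++ w') = xor (par w) (par w') := by
  induction w with
  | nil => simp [par]
  | cons b w ih => simp [par, ih]

theorem ap_mem (hreg : ∀ x v, ((G x).neighborSet v).encard = 2) (w : List Bool) {z : ZZ} (hz : z ∈ EE G) :
    ap G w z ∈ EE G := by
  induction w generalizing z with
  | nil => exact hz
  | cons b w ih =>
    cases b
    · exact ih (FF_mem hz)
    · exact ih (NN_mem hreg hz)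

theorem ap_fst (w : List Bool) (z : ZZ) : (ap G w z).1 = z.1 := by
  induction w generalizing z with
  | nil => rfl
  | cons b w ih =>
    cases b
    · exact ih _
    · exact ih _

theorem measurable_ap (hreg : ∀ x v, ((G x).neighborSet v).encard = 2) (hE : MeasurableSet (EE G))
    (w : List Bool) : Measurable (ap G w) := by
  induction w with
  | nil => exact measurable_id
  | cons b w ih =>
    cases b
    · exact ih.comp measurable_FF
    · exact ih.comp (measurable_NN hreg hE)

theorem exists_inv (hreg : ∀ x v, ((G x).neighborSet v).encard = 2) (w : List Bool) {z : ZZ} (hz : z ∈ EE G) :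
    ∃ w', par w' = par w ∧ ap G w' (ap G w z) = z := by
  induction w generalizing z with
  | nil => exact ⟨[], rfl, rfl⟩
  | cons b w ih =>
    cases b
    · obtain ⟨w', h1, h2⟩ := ih (FF_mem hz)
      refine ⟨w' ++ [false], by rw [par_append, h1]; simp [par], ?_⟩
      rw [ap_append]
      show FF (ap G w' (ap G w (FF z))) = z
      rw [h2, FF_FF]
    · obtain ⟨w', h1, h2⟩ := ih (NN_mem hreg hz)
      refine ⟨w' ++ [false, true, false], by rw [par_append, h1]; simp [par], ?_⟩
      rw [ap_append]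
      show FF (NN G (FF (ap G w' (ap G w (NN G z))))) = z
      rw [h2]
      have h3 := NFNF hreg (FF_mem hz)
      rw [FF_FF] at h3
      rw [h3, FF_FF]

/-- the odd relation -/
def OO (G : (ℕ → Bool) → SimpleGraph (ℕ → Bool)) : Set (ZZ × ZZ) :=
  {p | p.1 ∈ EE G ∧ ∃ w, par w = true ∧ p.2 = ap G w p.1}

theorem measurableSet_OO (hreg : ∀ x v, ((G x).neighborSet v).encard = 2) (hE : MeasurableSet (EE G)) :
    MeasurableSet (OO G) := by
  have e : OO G = {p | p.1 ∈ EE G} ∩ ⋃ w : List Bool, ⋃ (_ : par w = true), {p | p.2 = ap G w p.1} := by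
    ext p
    simp only [OO, Set.mem_ofPred_eq, Set.mem_inter_iff, Set.mem_iUnion, exists_prop]
  rw [e]
  refine (measurable_fst hE).inter (MeasurableSet.iUnion fun w => MeasurableSet.iUnion fun _ => ?_)
  exact measurableSet_eq_fun measurable_snd ((measurable_ap hreg hE w).comp measurable_fst)

/-! ## Colourings -/

theorem col_of (hreg : ∀ x v, ((G x).neighborSet v).encard = 2) (hE : MeasurableSet (EE G)) {c : ZZ → ℕ}
    (hc : Measurable c) {x : ℕ → Bool} (h : ∀ p ∈ OO G, p.1.1 = x → c p.1 ≠ c p.2) : HasEdgeCol (G x) 2 := by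
  classical
  let P : ℕ → Bool → ZZ → Prop := fun n ε z => ∃ w, par w = ε ∧ c (ap G w z) = n
  let m : ZZ → ℕ := fun z => sInf {n | ∃ w, c (ap G w z) = n}
  let κ : ZZ → Bool := fun z => decide (P (m z) true z)
  have hPF : ∀ n ε z, P n ε (FF z) ↔ P n ε z := by
    have h1 : ∀ n ε z, P n ε (FF z) → P n ε z := by
      rintro n ε z ⟨w, h1, h2⟩
      exact ⟨false :: w, by simp [par, h1], h2⟩
    exact fun n ε z => ⟨h1 n ε z, fun h2 => h1 n ε (FF z) h2⟩
  have hPN : ∀ n ε, ∀ z ∈ EE G, (P n ε (NN G z) ↔ P n (!ε) z) := by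
    intro n ε z hz
    constructor
    · rintro ⟨w, h1, h2⟩
      exact ⟨true :: w, by simp [par, h1], h2⟩
    · rintro ⟨w, h1, h2⟩
      refine ⟨[false, true, false] ++ w, by rw [par_append, h1]; cases ε <;> simp [par], ?_⟩
      rw [ap_append]
      show c (ap G w (FF (NN G (FF (NN G z))))) = n
      have h3 := NFNF hreg (FF_mem hz)
      rw [FF_FF] at h3
      rw [h3, FF_FF]
      exact h2
  have hm : ∀ z, {n | ∃ w, c (ap G w z) = n} = {n | P n true z ∨ P n false z} := by
    intro z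
    ext n
    constructor
    · rintro ⟨w, h1⟩
      cases h2 : par w
      · exact Or.inr ⟨w, h2, h1⟩
      · exact Or.inl ⟨w, h2, h1⟩
    · rintro (⟨w, _, h1⟩ | ⟨w, _, h1⟩)
      · exact ⟨w, h1⟩
      · exact ⟨w, h1⟩
  have hmF : ∀ z, m (FF z) = m z := by
    intro z
    show sInf _ = sInf _
    rw [hm, hm]
    congr 1
    ext n
    simp only [Set.mem_ofPred_eq, hPF]
  have hmN : ∀ z ∈ EE G, m (NN G z) = m z := by
    intro z hz
    show sInf _ = sInf _
    rw [hm, hm]
    congr 1
    ext n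
    simp only [Set.mem_ofPred_eq, hPN n _ z hz, Bool.not_true, Bool.not_false]
    exact or_comm
  have hmem : ∀ z, P (m z) true z ∨ P (m z) false z := by
    intro z
    have hne : {n | ∃ w, c (ap G w z) = n}.Nonempty := ⟨_, [], rfl⟩
    have h1 : m z ∈ {n | ∃ w, c (ap G w z) = n} := Nat.sInf_mem hne
    rw [hm] at h1
    exact h1
  have hexcl : ∀ n, ∀ z ∈ EE G, z.1 = x → ¬ (P n true z ∧ P n false z) := by
    rintro n z hz hzx ⟨⟨w1, h1, h2⟩, ⟨w2, h3, h4⟩⟩
    obtain ⟨w', h5, h6⟩ := exists_inv hreg w1 hz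
    refine h (ap G w1 z, ap G w2 z) ⟨ap_mem hreg w1 hz, w' ++ w2, ?_, ?_⟩ ?_ (h2.trans h4.symm)
    · rw [par_append, h5, h1, h3]; rfl
    · rw [ap_append, h6]
    · rw [ap_fst]; exact hzx
  have hκF : ∀ z, κ (FF z) = κ z := by
    intro z
    show decide (P (m (FF z)) true (FF z)) = decide (P (m z) true z)
    rw [hmF, decide_eq_decide, hPF]
  have hκN : ∀ z ∈ EE G, z.1 = x → κ (NN G z) ≠ κ z := by
    intro z hz hzx
    show decide (P (m (NN G z)) true (NN G z)) ≠ decide (P (m z) true z)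
    rw [hmN z hz, Ne, decide_eq_decide, hPN _ _ z hz]
    intro h1
    rcases hmem z with h2 | h2
    · exact hexcl _ z hz hzx ⟨h2, h1.2 h2⟩
    · exact hexcl _ z hz hzx ⟨h1.1 h2, h2⟩
  have hmm : Measurable m := by
    apply measurable_sInf_nat
    intro t
    have e : {z : ZZ | ∃ w, c (ap G w z) = t} = ⋃ w, {z | c (ap G w z) = t} := by
      ext z; simp
    rw [e]
    exact MeasurableSet.iUnion fun w => (hc.comp (measurable_ap hreg hE w)) (measurableSet_singleton t)
  have hκm : MeasurableSet {z | P (m z) true z} := by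
    have e : {z | P (m z) true z} = ⋃ n, ({z | m z = n} ∩ ⋃ w : List Bool, ⋃ (_ : par w = true),
        {z | c (ap G w z) = n}) := by
      ext z
      simp only [P, Set.mem_ofPred_eq, Set.mem_iUnion, Set.mem_inter_iff, exists_prop]
      constructor
      · intro h1; exact ⟨_, rfl, h1⟩
      · rintro ⟨n, h1, h2⟩; rw [h1]; exact h2
    rw [e]
    exact MeasurableSet.iUnion fun n => (hmm (measurableSet_singleton n)).inter
      (MeasurableSet.iUnion fun w => MeasurableSet.iUnion fun _ =>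
        (hc.comp (measurable_ap hreg hE w)) (measurableSet_singleton n))
  have hκ' : Measurable κ := by
    apply measurable_to_bool
    have e : κ ⁻¹' {true} = {z | P (m z) true z} := by
      ext z
      simp [κ]
    rw [e]
    exact hκm
  refine ⟨fun p => if κ (x, p.1) = true then 0 else 1, ?_, ?_, ?_⟩
  · have h1 : Measurable fun p : {p : (ℕ → Bool) × (ℕ → Bool) // (G x).Adj p.1 p.2} => κ (x, p.1) :=
      hκ'.comp (measurable_const.prodMk measurable_subtype_coe)
    exact Measurable.ite (h1 (measurableSet_singleton true)) measurable_const measurable_const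
  · intro u v huv
    have := hκF (x, (u, v))
    show (if κ (x, (u, v)) = true then (0 : Fin 2) else 1) = if κ (x, (v, u)) = true then 0 else 1
    change κ (x, (v, u)) = κ (x, (u, v)) at this
    rw [this]
  · intro u v w huv huw hvw
    have h1 := hκN (x, (v, u)) huv.symm rfl
    rw [NN_eq hreg huv.symm huw hvw.symm] at h1
    have h2 := hκF (x, (u, v))
    change κ (x, (v, u)) = κ (x, (u, v)) at h2
    rw [h2] at h1
    show (if κ (x, (u, v)) = true then (0 : Fin 2) else 1) ≠ if κ (x, (u, w)) = true then 0 else 1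
    cases h3 : κ (x, (u, v)) <;> cases h4 : κ (x, (u, w)) <;> simp_all

theorem exists_parity (hreg : ∀ x v, ((G x).neighborSet v).encard = 2) (hE : MeasurableSet (EE G))
    {x : ℕ → Bool} (h : HasEdgeCol (G x) 2) :
    ∃ κ : ZZ → Bool, Measurable κ ∧ ∀ p ∈ OO G, p.1.1 = x → κ p.1 ≠ κ p.2 := by
  classical
  obtain ⟨c, hc, h1, h2⟩ := h
  have hx : MeasurableSet {p : (ℕ → Bool) × (ℕ → Bool) | (G x).Adj p.1 p.2} := by
    have : Measurable fun p : (ℕ → Bool) × (ℕ → Bool) => ((x, p) : ZZ) := by fun_prop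
    exact this hE
  let κ0 : (ℕ → Bool) × (ℕ → Bool) → Bool := fun p => if h : (G x).Adj p.1 p.2 then decide (c ⟨p, h⟩ = 0) else false
  have hκ0 : Measurable κ0 := by
    have hv : Measurable fun p : {p : (ℕ → Bool) × (ℕ → Bool) // (G x).Adj p.1 p.2} => decide (c p = 0) :=
      (Measurable.of_discrete (f := fun i : Fin 2 => decide (i = 0))).comp hc
    exact Measurable.dite (s := {p : (ℕ → Bool) × (ℕ → Bool) | (G x).Adj p.1 p.2})
      (f := fun p => decide (c p = 0)) (g := fun _ => false) hv measurable_const hx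
  refine ⟨fun z => κ0 z.2, by fun_prop, ?_⟩
  have hF : ∀ z ∈ EE G, z.1 = x → κ0 (FF z).2 = κ0 z.2 := by
    rintro ⟨x', u, v⟩ hz rfl
    have huv : (G x').Adj u v := hz
    show (if h : (G x').Adj v u then decide (c ⟨(v, u), h⟩ = 0) else false) =
      if h : (G x').Adj u v then decide (c ⟨(u, v), h⟩ = 0) else false
    rw [dif_pos huv.symm, dif_pos huv, h1 u v huv]
  have hN : ∀ z ∈ EE G, z.1 = x → κ0 (NN G z).2 = !(κ0 z.2) := by
    rintro ⟨x', u, v⟩ hz rfl
    have huv : (G x').Adj u v := hz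
    obtain ⟨⟨h3, h4⟩, _⟩ := ot_spec hreg (z := (x', (u, v))) hz
    show (if h : (G x').Adj v (ot G (x', (u, v))) then decide (c ⟨(v, ot G (x', (u, v))), h⟩ = 0) else false) =
      !(if h : (G x').Adj u v then decide (c ⟨(u, v), h⟩ = 0) else false)
    rw [dif_pos h3, dif_pos huv, h1 u v huv]
    have h5 := h2 v (ot G (x', (u, v))) u h3 huv.symm h4
    generalize c ⟨(v, ot G (x', (u, v))), h3⟩ = a at *
    generalize c ⟨(v, u), huv.symm⟩ = a' at *
    revert a a'
    decide
  have key : ∀ (w : List Bool), ∀ z ∈ EE G, z.1 = x → κ0 (ap G w z).2 = xor (κ0 z.2) (par w) := by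
    intro w
    induction w with
    | nil => intro z _ _; simp [ap, par]
    | cons b w ih =>
      intro z hz hzx
      cases b
      · have := ih (FF z) (FF_mem hz) hzx
        rw [hF z hz hzx] at this
        simpa [ap, par] using this
      · have := ih (NN G z) (NN_mem hreg hz) hzx
        rw [hN z hz hzx] at this
        simpa [ap, par] using this
  rintro ⟨z, z'⟩ ⟨hz, w, hw, hz'⟩ hzx
  change z' = ap G w z at hz'
  show κ0 z.2 ≠ κ0 z'.2
  rw [hz', key w z hz hzx, hw]
  simp

/-! ## The theorem -/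

/-- There is a `Σ¹₂` (in fact analytic) set `B` such that no Borel family of 2-regular Borel graphs has Borel
chromatic index 2 exactly over `B`. -/
theorem not_distinguish (hDC : ∀ B : Set (ℕ → Bool), IsSigma12 B →
    ∃ f : (ℕ → Bool) → (ℕ → ℕ), Measurable f ∧ ∀ x, ∃ G : SimpleGraph (ℕ → Bool),
      Codes (f x) {p | G.Adj p.1 p.2} ∧ G.IsAcyclic ∧ (∀ v, (G.neighborSet v).encard = (2 : ℕ)) ∧
      (x ∈ B → IsLeast {j | HasEdgeCol G j} 2) ∧ (x ∉ B → IsLeast {j | HasEdgeCol G j} (2 + 1))) : False := by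
  have hDg : IsSigma12 Dg := by
    refine ⟨{q | ∀ n, q.1 (Encodable.encode (prs q.1 q.2 n)) = true}, ?_, rfl⟩
    exact measurableSet_DgC.compl.analyticSet
  obtain ⟨f, hf, hG⟩ := hDC Dg hDg
  choose G h1 h2 h3 h4 h5 using hG
  have hreg : ∀ x v, ((G x).neighborSet v).encard = 2 := fun x v => h3 x v
  have hE : MeasurableSet (EE G) := measurableSet_sections hf h1
  have hiff : ∀ x, x ∈ Dg ↔ HasEdgeCol (G x) 2 := by
    intro x
    constructor
    · intro hx
      exact (h4 x hx).1
    · intro hx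
      by_contra hn
      have := (h5 x hn).2 hx
      omega
  have hO := measurableSet_OO hreg hE
  have hDgan : AnalyticSet Dg := by
    have e : Dg = Prod.fst '' {q : (ℕ → Bool) × (ℕ → ℕ) | ∀ n, q.1 (Encodable.encode (prs q.1 q.2 n)) = true} := by
      ext x
      constructor
      · rintro ⟨y, hy⟩
        exact ⟨(x, y), hy, rfl⟩
      · rintro ⟨⟨x, y⟩, hy, rfl⟩
        exact ⟨y, hy⟩
    rw [e]
    exact measurableSet_DgC.analyticSet_image measurable_fst
  let OB : Set (ZZ × ZZ) := OO G ∩ {p | p.1.1 ∈ Dg}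
  have hOB : AnalyticSet OB := by
    refine analytic_inter hO.analyticSet (hDgan.preimage (f := fun p : ZZ × ZZ => p.1.1) ?_)
    exact continuous_fst.comp continuous_fst
  by_cases hcol : ∃ c : ZZ → ℕ, Measurable c ∧ ∀ p ∈ OB, c p.1 ≠ c p.2
  · obtain ⟨c, hc, hcc⟩ := hcol
    apply not_measurableSet_Dg
    apply hDgan.measurableSet_of_compl
    have e : Dgᶜ = (fun p : ZZ × ZZ => p.1.1) '' (OO G ∩ {p | c p.1 = c p.2}) := by
      ext x
      constructor
      · intro hx
        by_contra hn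
        apply hx
        rw [hiff]
        refine col_of hreg hE hc fun p hp hpx he => hn ⟨p, ⟨hp, he⟩, hpx⟩
      · rintro ⟨p, ⟨hp, he⟩, rfl⟩ hx
        exact hcc p ⟨hp, hx⟩ he
    rw [e]
    refine (hO.inter ?_).analyticSet_image (measurable_fst.comp measurable_fst)
    exact measurableSet_eq_fun (hc.comp measurable_fst) (hc.comp measurable_snd)
  · obtain ⟨s, hs, hd⟩ := exists_dense_words
    obtain ⟨φ, hφ, hφ2⟩ := dich hOB hs hcol
    have hfst : ∀ z z', (φ z).1 = (φ z').1 := by
      apply const_of_inv hs (g := fun z => (φ z).1) (continuous_fst.comp hφ)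
      intro k z
      obtain ⟨⟨_, w, _, hw⟩, _⟩ := hφ2 k z
      change φ (cat (s k ++ [true]) z) = ap G w (φ (cat (s k ++ [false]) z)) at hw
      rw [hw, ap_fst]
    have hx0 : (φ fun _ => false).1 ∈ Dg := by
      obtain ⟨_, h⟩ := hφ2 0 fun _ => false
      change (φ (cat (s 0 ++ [false]) fun _ => false)).1 ∈ Dg at h
      rw [hfst _ (cat (s 0 ++ [false]) fun _ => false)]
      exact h
    obtain ⟨κ, hκ, hκ2⟩ := exists_parity hreg hE ((hiff _).1 hx0)
    obtain ⟨k, z, hkz⟩ := no_col hd (c := fun z => κ (φ z)) (hκ.comp hφ.measurable)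
    exact hκ2 _ (hφ2 k z).1 (hfst _ _) hkz

end

end Pool.Agent.Helper56.GZ
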